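import Pool.Agent.Lib.MP_67db36_lc.Final

/-!
# Structure of the set of fusible numbers

Consequences of the theorem that every fusible number is tame
(`Pool.Agent.Lib.MP_67db36_lc.Fus.tm`).
-/

set_option autoImplicit false

namespace Pool.Agent.FU22

open Pool.Agent.Lib.MP_67db36_lc

/-- The fusible numbers: the smallest set of rationals that contains `0` and contains
`a ∼ b = (a + b + 1) / 2` whenever it contains `a` and `b` and `|a - b| < 1`. -/
inductive Fusible : ℚ → Prop
  | zero : Fusible 0
  | fuse (a b : ℚ) (ha : Fusible a) (hb : Fusible b) (hab : |a - b| < 1) :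
      Fusible ((a + b + 1) / 2)

/-- `x < y` are fusible and no fusible number lies strictly between them: `y` is the successor
of `x` among the fusible numbers. -/
def IsNext (x y : ℚ) : Prop :=
  Fusible x ∧ Fusible y ∧ x < y ∧ ∀ z, Fusible z → ¬ (x < z ∧ z < y)

/-- `s_n = x + (2 - 1 / 2 ^ n) m` with `m = y - x`. -/
def sval (x y : ℚ) (n : ℕ) : ℚ := x + (2 - 1 / 2 ^ n) * (y - x)

/-- `ℓ_n = y + 1 - m / 2 ^ n` with `m = y - x`. -/
def lval (x y : ℚ) (n : ℕ) : ℚ := y + 1 - (y - x) / 2 ^ n

theorem fusible_iff (q : ℚ) : Fusible q ↔ Fus q := by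
  constructor
  · intro h
    induction h with
    | zero => exact Fus.zero
    | fuse a b _ _ hab iha ihb =>
      rw [abs_lt] at hab
      exact Fus.fuse iha ihb (by linarith) (by linarith)
  · intro h
    induction h with
    | zero => exact Fusible.zero
    | @fuse a b _ _ h1 h2 iha ihb =>
      exact Fusible.fuse a b iha ihb (by rw [abs_lt]; constructor <;> linarith)

theorem isNext_iff (x y : ℚ) : IsNext x y ↔ Consec x y := by
  unfold IsNext Consec
  simp only [fusible_iff]

theorem div_two_pow (r : ℚ) (n : ℕ) : r / 2 ^ n = r * pw n := by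
  unfold pw
  rw [one_div, inv_pow, div_eq_mul_inv]

theorem one_div_two_pow (n : ℕ) : (1 : ℚ) / 2 ^ n = pw n := by
  rw [div_two_pow, one_mul]

theorem sval_eq (x y : ℚ) (n : ℕ) : sval x y n = 2 * y - x - (y - x) * pw n := by
  unfold sval
  rw [one_div_two_pow]
  ring

theorem lval_eq (x y : ℚ) (n : ℕ) : lval x y n = y + 1 - (y - x) * pw n := by
  unfold lval
  rw [div_two_pow]

theorem str {g : ℚ} (hg : Fus g) : ∃ i, Str g i :=
  exists_str (t := g + 1) (fun q hq _ => Fus.tm q hq) g hg (by linarith)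

/-- the exact dyadic level is the exponent of the denominator. -/
theorem pw_level {g : ℚ} {i : ℕ} (h : Lv g i) : pw i = 1 / (g.den : ℚ) := by
  obtain ⟨k, hk⟩ := h.mu
  have hk' : g = (k : ℚ) / ((2 ^ i : ℕ) : ℤ) := by
    rw [hk, ← one_div_two_pow]
    push_cast
    ring
  have hd : g.den ∣ 2 ^ i := by
    have h1 : ((Rat.divInt k ((2 ^ i : ℕ) : ℤ)).den : ℤ) ∣ ((2 ^ i : ℕ) : ℤ) :=
      Rat.den_dvd k ((2 ^ i : ℕ) : ℤ)
    rw [Rat.divInt_eq_div, ← hk'] at h1
    exact_mod_cast h1
  obtain ⟨j, hji, hj⟩ := (Nat.dvd_prime_pow Nat.prime_two).mp hd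
  have h2 : Mu j g := by
    refine ⟨g.num, ?_⟩
    rw [← one_div_two_pow]
    have h3 := Rat.num_div_den g
    rw [hj] at h3
    push_cast at h3
    rw [← h3]
    simp only [h3]
    rw [mul_one_div, h3]
  have h4 := (h j).mp h2
  have h5 : i = j := le_antisymm h4 hji
  rw [hj, h5, ← one_div_two_pow]
  push_cast
  rfl

/-- the left end points of the blocks are limits of fusible numbers from below. -/
theorem lim_left {X Y : ℚ} (hc : Consec X Y) {i : ℕ} (hY : Str Y i) (n : ℕ) {r : ℚ}
    (hr : r < Y + 1 - pw (i + n)) : ∃ v, Fus v ∧ r < v ∧ v < Y + 1 - pw (i + n) := by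
  have hg := consec_gap hc hY
  have hi := (sc_of_consec hc hY).one_le
  obtain ⟨k, hk⟩ := exists_pw_lt (show (0 : ℚ) < Y + 1 - pw (i + n) - r by linarith)
  cases n with
  | zero =>
    refine ⟨X + 1 - pw k, hc.1.add_one_sub_pw k, ?_, ?_⟩
    · rw [add_zero] at hk
      linarith
    · rw [add_zero]
      linarith [pw_pos k]
  | succ n =>
    have e0 := pw_two (i + n)
    have e1 := pw_two k
    have e2 := pw_pos k
    have e3 := pw_pos (k + 1)
    have e4 : pw i ≤ pw 1 := pw_le_pw hi
    rw [pw_one] at e4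
    have e5 : pw (i + n) ≤ pw i := pw_le_pw (by omega)
    have e6 := pw_le_one k
    have e7 := pw_pos (i + n)
    have e8 : pw (i + (n + 1)) = pw (i + n + 1) := rfl
    rw [e8] at hk ⊢
    refine ⟨Y + 1 - pw (i + n + 1) - pw (k + 1), ?_, ?_, ?_⟩
    · exact Fus.fuse' (hY.upl (i + n) (by omega)) (hc.1.add_one_sub_pw k)
        (by linarith) (by linarith) (by linarith)
    · linarith
    · linarith

/-- **Gaps are halved.** If `x < y` are consecutive fusible numbers then the next one is
`y + (y - x) / 2`. -/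
theorem half : ∀ y, Fus y → ∀ x, Consec x y → Consec y (y + (y - x) / 2) := by
  apply Fus.strong_induction
  intro y hy ih x hc
  have hT := Fus.tm y hy
  cases hT with
  | base k =>
    obtain ⟨m, hm⟩ := hc.1.lt_one (by have := hc.2.2.1; have := pw_pos k; linarith)
    subst hm
    have hx := hc.2.2.1
    have hmk : m < k := pw_lt_iff.mp (by linarith)
    obtain ⟨k, rfl⟩ : ∃ k', k = k' + 1 := ⟨k - 1, by omega⟩
    have e1 := pw_two k
    have e2 := pw_two (k + 1)
    have e3 := pw_pos (k + 1)
    have e4 : m = k := by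
      by_contra hne
      have h1 : pw k < pw m := pw_lt_pw (by omega)
      exact hc.2.2.2 _ (Fus.one_sub_pw k) ⟨by linarith, by linarith⟩
    subst e4
    have e5 : 1 - pw (m + 1) + (1 - pw (m + 1) - (1 - pw m)) / 2 = 1 - pw (m + 1 + 1) := by
      linarith
    rw [e5]
    refine ⟨hy, Fus.one_sub_pw _, by linarith [pw_pos (m + 1 + 1)], ?_⟩
    rintro z hz ⟨h1, h2⟩
    obtain ⟨l, rfl⟩ := hz.lt_one (by linarith [pw_pos (m + 1 + 1)])
    have b1 : m + 1 < l := pw_lt_iff.mp (by linarith)
    have b2 : l < m + 1 + 1 := pw_lt_iff.mp (by linarith)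
    omega
  | @step X Y z n hC hs hz h1 h2 =>
    obtain ⟨i, hY⟩ := str hC.2.1
    have hg := consec_gap hC hY
    have hi := (sc_of_consec hC hY).one_le
    have hprod : (Y - X) * pw n = pw (i + n) := by rw [hg, pw_add]
    have hprod2 : (Y - X) * pw (n + 1) = pw (i + n + 1) := by
      rw [hg, show i + n + 1 = i + (n + 1) by ring, pw_add i]
    have e0 := pw_two (i + n)
    have e4 : pw i ≤ pw 1 := pw_le_pw hi
    rw [pw_one] at e4
    have e5 : pw (i + n) ≤ pw i := pw_le_pw (by omega)
    have e7 := pw_pos (i + n)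
    have e8 := pw_pos (i + n + 1)
    have hz0 := hz.fus
    have hS : 2 * Y - X - (Y - X) * pw n = Y + pw i - pw (i + n) := by rw [hprod]; linarith
    rw [hprod] at h1
    rw [hS] at hs hc hy ih ⊢
    have hxy := hc.2.2.1
    have hlF : Fus (Y + 1 - pw (i + n)) := hC.2.1.add_one_sub_pw _
    rcases eq_or_lt_of_le h1 with h1 | h1
    · exfalso
      have e : (Y + pw i - pw (i + n) + z + 1) / 2 = Y + 1 - pw (i + n) := by linarith
      obtain ⟨v, hv, hv1, hv2⟩ := lim_left hC hY n (r := x) (by rw [← e]; exact hxy)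
      rw [← e] at hv2
      exact hc.2.2.2 v hv ⟨hv1, hv2⟩
    · have hlx : Y + 1 - pw (i + n) ≤ x := hc.le_of_lt' hlF (by linarith)
      have hinv : ∀ w, Fus w → Y + 1 - pw (i + n) ≤ w → w < Y + 1 - pw (i + n + 1) →
          Fus (2 * w - 1 - (Y + pw i - pw (i + n))) := by
        intro w hw hw1 hw2
        have := ((Fus.tm w hw).inv (n := n) hC (by rw [hprod]; exact hw1)
          (by rw [hprod2]; exact hw2)).fus
        rw [hS] at this
        exact this
      have hbl : ∀ w, Fus w → X + 1 - pw (i + n) ≤ w → w < X + 1 →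
          Fus ((Y + pw i - pw (i + n) + w + 1) / 2) := by
        intro w hw hw1 hw2
        exact Fus.fuse hs hw (by linarith) (by linarith)
      have hz' := hinv x hc.1 hlx (by linarith)
      have hcz : Consec (2 * x - 1 - (Y + pw i - pw (i + n))) z := by
        refine ⟨hz', hz0, by linarith, ?_⟩
        rintro v hv ⟨hv1, hv2⟩
        exact hc.2.2.2 _ (hbl v hv (by linarith) (by linarith)) ⟨by linarith, by linarith⟩
      have hcz2 := ih z hz0 (by linarith) _ hcz
      have hX1 : Fus (X + 1) := hC.1.add_one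
      have hle := hcz2.le_of_lt hX1 h2
      have hlt : z + (z - (2 * x - 1 - (Y + pw i - pw (i + n)))) / 2 < X + 1 := by
        rcases eq_or_lt_of_le hle with he | he
        · exfalso
          rw [he] at hcz2
          obtain ⟨k, hk⟩ := exists_pw_lt (show (0 : ℚ) < X + 1 - z by linarith)
          exact hcz2.2.2.2 _ (hC.1.add_one_sub_pw k) ⟨by linarith, by linarith [pw_pos k]⟩
        · exact he
      have hn := hbl _ hcz2.2.1 (by linarith) hlt
      have e9 : (Y + pw i - pw (i + n) + z + 1) / 2 +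
          ((Y + pw i - pw (i + n) + z + 1) / 2 - x) / 2 =
          (Y + pw i - pw (i + n) +
            (z + (z - (2 * x - 1 - (Y + pw i - pw (i + n)))) / 2) + 1) / 2 := by ring
      rw [e9]
      refine ⟨hy, hn, by linarith, ?_⟩
      rintro v hv ⟨hv1, hv2⟩
      have hv3 := hinv v hv (by linarith) (by linarith)
      exact hcz2.2.2.2 _ hv3 ⟨by linarith, by linarith⟩

/-- `s_n` and `s_{n+1}` are consecutive. -/
theorem chain {x y : ℚ} (hc : Consec x y) (n : ℕ) : Consec (sval x y n) (sval x y (n + 1)) := by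
  induction n with
  | zero =>
    have h := half y hc.2.1 x hc
    have e1 : sval x y 0 = y := by unfold sval; norm_num
    have e2 : sval x y (0 + 1) = y + (y - x) / 2 := by unfold sval; norm_num; ring
    rw [e1, e2]
    exact h
  | succ n ih =>
    have h := half _ ih.2.1 _ ih
    have e : sval x y (n + 1) + (sval x y (n + 1) - sval x y n) / 2 = sval x y (n + 1 + 1) := by
      simp only [sval_eq]
      have e1 := pw_succ n
      have e2 := pw_succ (n + 1)
      rw [e2, e1]
      ring
    rwa [e] at h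

/-- membership recursion on the block `[ℓ_n, ℓ_{n+1})`. -/
theorem block {x y q : ℚ} (hc : Consec x y) (n : ℕ) (h1 : lval x y n ≤ q)
    (h2 : q < lval x y (n + 1)) :
    Fus q ↔ Fus (2 * q - 1 - sval x y n) := by
  obtain ⟨i, hY⟩ := str hc.2.1
  have hg := consec_gap hc hY
  have hi := (sc_of_consec hc hY).one_le
  have e4 : pw i ≤ pw 1 := pw_le_pw hi
  rw [pw_one] at e4
  have hs : Fus (sval x y n) := (chain hc n).1
  rw [sval_eq] at *
  rw [lval_eq] at h1 h2
  have e1 := pw_succ n
  have e2 := pw_pos n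
  have e3 := pw_le_one n
  have e5 := pw_pos i
  constructor
  · intro hq
    exact ((Fus.tm q hq).inv hc h1 h2).fus
  · intro hz
    have e6 : (y - x) * pw n ≤ y - x := by nlinarith
    have e7 : 0 < (y - x) * pw n := mul_pos (by linarith) e2
    have e8 : (y - x) * pw (n + 1) = (y - x) * pw n / 2 := by rw [e1]; ring
    rw [e8] at h2
    exact Fus.fuse' hs hz (by linarith) (by linarith) (by ring)

/-- `s_n` and `2 q - 1 - s_n` are at distance less than one. -/
theorem block_close {x y q : ℚ} (hc : Consec x y) (n : ℕ) (h1 : lval x y n ≤ q)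
    (h2 : q < lval x y (n + 1)) :
    |sval x y n - (2 * q - 1 - sval x y n)| < 1 := by
  obtain ⟨i, hY⟩ := str hc.2.1
  have hg := consec_gap hc hY
  have hi := (sc_of_consec hc hY).one_le
  have e4 : pw i ≤ pw 1 := pw_le_pw hi
  rw [pw_one] at e4
  rw [sval_eq]
  rw [lval_eq] at h1 h2
  have e1 := pw_succ n
  have e2 := pw_pos n
  have e3 := pw_le_one n
  have e5 := pw_pos i
  have e6 : (y - x) * pw n ≤ y - x := by nlinarith
  have e7 : 0 < (y - x) * pw n := mul_pos (by linarith) e2
  have e8 : (y - x) * pw (n + 1) = (y - x) * pw n / 2 := by rw [e1]; ring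
  rw [e8] at h2
  rw [abs_lt]
  constructor <;> linarith

/-- every rational number at least `1` lies in a block. -/
theorem cover {q : ℚ} (hq : 1 ≤ q) :
    ∃ x y, Consec x y ∧ ∃ n, lval x y n ≤ q ∧ q < lval x y (n + 1) := by
  obtain ⟨y, hy, hy1, hy2⟩ := Fus.exists_succ (q - 1)
  obtain ⟨i, hY⟩ := str hy
  have hy0 : 0 < y := by linarith
  have hlim : ¬ ∀ j, i ≤ j → Fus (y - pw j) := by
    intro h
    obtain ⟨j, hj⟩ := exists_pw_lt (show (0 : ℚ) < y - (q - 1) by linarith)
    have h1 := h (max i j) (le_max_left _ _)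
    have h2 := pw_le_pw (le_max_right i j)
    have h3 := pw_pos (max i j)
    have := hy2 _ h1 (by linarith)
    linarith
  have hc : Consec (y - pw i) y := by
    refine ⟨hY.dn hy0, hy, by linarith [pw_pos i], ?_⟩
    rcases hY.ty hy0 with h | h
    · exact absurd h hlim
    · exact h
  have hx : y - pw i ≤ q - 1 := by
    by_contra hcon
    push Not at hcon
    have := hy2 _ hc.1 hcon
    linarith [pw_pos i]
  obtain ⟨k, hk1, hk2⟩ := exists_lead (c := y + 1 - q) (by linarith)
    (by linarith [pw_le_one i])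
  have hik : i ≤ k := lead_ge hk1 (by linarith)
  obtain ⟨n, rfl⟩ := Nat.exists_eq_add_of_le hik
  refine ⟨y - pw i, y, hc, n, ?_, ?_⟩
  · rw [lval_eq]
    have e : (y - (y - pw i)) * pw n = pw (i + n) := by rw [pw_add]; ring
    rw [e]
    linarith
  · rw [lval_eq]
    have e : (y - (y - pw i)) * pw (n + 1) = pw (i + n + 1) := by
      rw [show i + n + 1 = i + (n + 1) by ring, pw_add i]; ring
    rw [e]
    linarith

/-- the gap below a successor is the reciprocal of its denominator (not used in the result). -/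
theorem gap_den {x y : ℚ} (h : IsNext x y) : y - x = 1 / (y.den : ℚ) := by
  have hc := (isNext_iff x y).mp h
  obtain ⟨i, hY⟩ := str hc.2.1
  rw [consec_gap hc hY, pw_level hY.lv]

end Pool.Agent.FU22
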